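import Mathlib

namespace Pool.Agent.Results.MP_afd993_co.Counter

open Finset

/-- domination number -/
noncomputable def gam {V : Type} (F : SimpleGraph V) : ℕ :=
  sInf {n | ∃ S : Finset V, S.card = n ∧ ∀ v, v ∉ S → ∃ u ∈ S, F.Adj v u}

/-- `π` makes `G` a `k`-fold cover of `F` -/
def IsCover {W V : Type} (G : SimpleGraph W) (F : SimpleGraph V) (π : W → V) (k : ℕ) : Prop :=
  Function.Surjective π ∧ (∀ w, Set.BijOn π (G.neighborSet w) (F.neighborSet (π w))) ∧
    ∀ v, (π ⁻¹' {v}).ncard = k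

theorem cover {V : Type} [Fintype V] (F : SimpleGraph V) (d : ℕ)
    (g : V → Fin (d + 1) → V) (hg : ∀ u, Function.Injective (g u)) (ha : ∀ u i, F.Adj u (g u i)) :
    ∃ G : SimpleGraph (V × Option (Fin (d + 1))), IsCover G F Prod.fst (d + 2) ∧
      gam G ≤ Fintype.card V := by
  classical
  let a : V → V → Equiv.Perm (Option (Fin (d + 1))) := fun u v =>
    if h : ∃ i, g u i = v then Equiv.swap (some 0) (some h.choose) else 1
  let s : Equiv.Perm (Option (Fin (d + 1))) := Equiv.swap none (some 0)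
  have ss : ∀ x, s (s x) = x := Equiv.swap_apply_self _ _
  let G : SimpleGraph (V × Option (Fin (d + 1))) :=
    { Adj := fun p q => F.Adj p.1 q.1 ∧ a p.1 q.1 p.2 = s (a q.1 p.1 q.2)
      symm := ⟨fun p q h => ⟨h.1.symm, by rw [h.2, ss]⟩⟩
      loopless := ⟨fun p h => h.1.ne rfl⟩ }
  refine ⟨G, ⟨Prod.fst_surjective, fun w => ⟨fun q h => h.1, ?_, ?_⟩, fun v => ?_⟩, ?_⟩
  · rintro ⟨u, i⟩ h ⟨v, j⟩ h' (rfl : u = v)
    exact Prod.ext rfl ((a u w.1).injective (s.injective (h.2.symm.trans h'.2)))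
  · intro v h
    exact ⟨(v, (a v w.1).symm (s (a w.1 v w.2))), ⟨h, by simp [ss]⟩, rfl⟩
  · have : Prod.fst ⁻¹' {v} = Set.range (Prod.mk v : Option (Fin (d + 1)) → _) := by
      ext ⟨x, y⟩; simp [eq_comm]
    rw [this, Set.ncard_range_of_injective (Prod.mk_right_injective v)]
    simp
  · refine Nat.sInf_le ⟨univ.image fun v => (v, none), ?_, ?_⟩
    · rw [card_image_of_injective _ (Prod.mk_left_injective _), card_univ]
    · rintro ⟨u, _ | i⟩ h
      · simp at h
      · refine ⟨(g u i, none), by simp, ha u i, ?_⟩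
        have h1 : ∃ j, g u j = g u i := ⟨i, rfl⟩
        have h2 : a (g u i) u none = none := by
          simp only [a]
          split_ifs
          · exact Equiv.swap_apply_of_ne_of_ne (by simp) (by simp)
          · rfl
        change a u (g u i) (some i) = s (a (g u i) u none)
        rw [h2]
        simp only [a, s, dif_pos h1, hg u h1.choose_spec, Equiv.swap_apply_right,
          Equiv.swap_apply_left]

/-- the categorical power of a complete graph -/
def F (t q : ℕ) : SimpleGraph (Fin (t + 1) → Fin q) where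
  Adj x y := ∀ i, x i ≠ y i
  symm := ⟨fun _ _ h i => (h i).symm⟩
  loopless := ⟨fun _ h => h 0 rfl⟩

theorem low (t q : ℕ) (h : t < q) : t < gam (F t q) := by
  classical
  refine le_csInf (a := t + 1) (s := {n | ∃ S : Finset _, S.card = n ∧
    ∀ v, v ∉ S → ∃ u ∈ S, (F t q).Adj v u}) ⟨_, univ, rfl, by simp⟩ ?_
  rintro n ⟨S, rfl, hS⟩
  by_contra c
  have c : S.card ≤ t := by omega
  obtain ⟨z, hz⟩ : ∃ z : Fin q, z ∉ S.image fun x => x 0 := by
    by_contra! f
    have := card_le_card (show univ ⊆ _ from fun z _ => f z)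
    have := card_image_le (s := S) (f := fun x => x 0)
    simp at *
    omega
  obtain ⟨e⟩ : Nonempty (S ↪ Fin t) := Function.Embedding.nonempty_of_card_le (by simpa using c)
  let y : Fin (t + 1) → Fin q :=
    Fin.cons z fun i => if h : ∃ x, e x = i then h.choose.1 i.succ else z
  obtain ⟨u, hu, g⟩ := hS y fun f => hz (mem_image.2 ⟨y, f, rfl⟩)
  have h1 : ∃ x, e x = e ⟨u, hu⟩ := ⟨_, rfl⟩
  apply g (e ⟨u, hu⟩).succ
  simp only [y, Fin.cons_succ, dif_pos h1, e.injective h1.choose_spec]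

theorem result (c : ℝ) (hc : 0 < c) : ∃ (k : ℕ) (V W : Type) (_ : Fintype V) (_ : Fintype W)
    (F : SimpleGraph V) (G : SimpleGraph W) (π : W → V),
    1 ≤ k ∧ IsCover G F π k ∧ (gam G : ℝ) < c * k * gam F := by
  classical
  obtain ⟨t, ht⟩ := exists_nat_gt (2 / c)
  obtain ⟨d, hd⟩ : ∃ d, (2 * t + 1) ^ (t + 1) = d + 1 :=
    ⟨_, (Nat.succ_pred (by positivity)).symm⟩
  let e : Fin (d + 1) ≃ (Fin (t + 1) → Fin (2 * t + 1)) :=
    Fintype.equivOfCardEq (by simp [hd])
  obtain ⟨G, h1, h2⟩ := cover (F t (2 * t + 1 + 1)) d (fun u j i => (u i).succAbove (e j i))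
    (fun u j j' h => e.injective (funext fun i => Fin.succAbove_right_injective (congrFun h i)))
    fun u j i => (Fin.succAbove_ne _ _).symm
  refine ⟨d + 2, _, _, inferInstance, inferInstance, _, G, _, by omega, h1, ?_⟩
  have h3 : (t : ℝ) < gam (F t (2 * t + 1 + 1)) := by exact_mod_cast low t _ (by omega)
  have h4 : (gam G : ℝ) ≤ (2 * t + 2) ^ (t + 1) := by
    simp only [Fintype.card_fun, Fintype.card_fin] at h2
    exact_mod_cast h2
  have h5 : (2 * t + 1 : ℝ) ^ (t + 1) = d + 1 := by exact_mod_cast hd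
  have h6 := one_add_mul_le_pow (a := -1 / (2 * t + 2 : ℝ))
    (by rw [le_div_iff₀ (by positivity)]; nlinarith [Nat.cast_nonneg (α := ℝ) t]) (t + 1)
  have e1 : 1 + -1 / (2 * t + 2 : ℝ) = (2 * t + 1) / (2 * t + 2) := by field_simp; ring
  have e2 : 1 + ((t + 1 : ℕ) : ℝ) * (-1 / (2 * t + 2 : ℝ)) = 1 / 2 := by push_cast; field_simp; ring
  rw [e1, e2, div_pow, h5, le_div_iff₀ (by positivity)] at h6
  rw [div_lt_iff₀ hc] at ht
  push_cast
  have : (2 : ℝ) < c * gam (F t (2 * t + 1 + 1)) := by nlinarith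
  nlinarith [Nat.cast_nonneg (α := ℝ) d]

end Pool.Agent.Results.MP_afd993_co.Counter
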